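import Mathlib
import Pool.Agent.H27.Bal

namespace Pool.Agent.Results.MP_0896c7_co.NotSurj
open Pool.Agent.H27.Bal

/-- `f_n : VR(Q_n; r) → [0,1]^n` is surjective: every point of the cube lies in the convex hull
of a nonempty set of cube vertices of Hamming diameter at most `r`. -/
def Surj (n r : ℕ) : Prop :=
  ∀ x : Fin n → ℝ, (∀ i, 0 ≤ x i ∧ x i ≤ 1) →
    ∃ σ : Finset (Fin n → Bool), σ.Nonempty ∧ (∀ a ∈ σ, ∀ b ∈ σ, hammingDist a b ≤ r) ∧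
      x ∈ convexHull ℝ (emb '' (σ : Set (Fin n → Bool)))

theorem result : ∀ n r : ℕ, 1 ≤ n → (2 * r ≤ n ∨ (r % 2 = 1 ∧ 3 ≤ r ∧ 2 * r ≤ n + 1)) →
    ¬ Surj n r := by
  intro n r hn h hs
  obtain ⟨σ, -, hd, hc⟩ := hs (fun _ => 1 / 2) (fun _ => by norm_num)
  have := lowerN hn σ hd hc
  omega

end Pool.Agent.Results.MP_0896c7_co.NotSurj
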